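import Mathlib
import Pool.Agent.Helper113.Gorin.Defs
import Pool.Agent.TH211.CovJ.An

set_option autoImplicit false

open Metric Set Topology H113G Filter

namespace Pool.Agent.TH211.J173

open Pool.Agent.TH211.CovJ

/-- translation of a polynomial -/
noncomputable def tr {k : ℕ} (c : Fin k → ℂ) (G : MvPolynomial (Fin k) ℂ) :
    MvPolynomial (Fin k) ℂ :=
  MvPolynomial.bind₁ (fun i => MvPolynomial.X i + MvPolynomial.C (c i)) G

theorem eval_tr {k : ℕ} (c : Fin k → ℂ) (G : MvPolynomial (Fin k) ℂ) (z : Fin k → ℂ) :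
    MvPolynomial.eval z (tr c G) = MvPolynomial.eval (z + c) G := by
  rw [tr, ← MvPolynomial.coe_aeval_eq_eval, ← MvPolynomial.coe_aeval_eq_eval]
  simp only [RingHom.coe_coe]
  rw [MvPolynomial.aeval_bind₁]
  congr 2
  ext i
  simp

theorem tr_ne_zero {k : ℕ} (c : Fin k → ℂ) {G : MvPolynomial (Fin k) ℂ} (hG : G ≠ 0) :
    tr c G ≠ 0 := by
  intro h
  apply hG
  apply MvPolynomial.funext
  intro z
  have := eval_tr c G (z - c)
  rw [h, sub_add_cancel, map_zero] at this
  rw [map_zero, ← this]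

theorem exists_eval_ne {k : ℕ} {G : MvPolynomial (Fin k) ℂ} (hG : G ≠ 0) :
    ∃ z : Fin k → ℂ, MvPolynomial.eval z G ≠ 0 := by
  by_contra hcon
  push Not at hcon
  exact hG (MvPolynomial.funext fun z => by rw [hcon z, map_zero])

theorem isClosed_of_isAlg {m : ℕ} {Y : Set (Fin m → ℂ)} (hY : IsAlg Y) : IsClosed Y := by
  obtain ⟨S, rfl⟩ := hY
  simp only [Set.ofPred_forall]
  refine isClosed_iInter fun P => isClosed_iInter fun _ => ?_
  exact isClosed_eq (contDiff_mv P).continuous continuous_const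

/-- Job A: existence of the finite branched covering of an irreducible affine algebraic set. -/
theorem exists_cov {m : ℕ} {Y : Set (Fin m → ℂ)} (hY : IsAlg Y) (hne : Y.Nonempty)
    (hprime : ∀ P Q : MvPolynomial (Fin m) ℂ, (∀ y ∈ Y, MvPolynomial.eval y (P * Q) = 0) →
      (∀ y ∈ Y, MvPolynomial.eval y P = 0) ∨ (∀ y ∈ Y, MvPolynomial.eval y Q = 0)) :
    ∃ (k : ℕ) (pr : (Fin m → ℂ) → (Fin k → ℂ)) (δ : MvPolynomial (Fin k) ℂ) (e : ℕ),
      Cov Y pr δ e := by
  classical
  obtain ⟨k, p, W, P, D, Q, M, a, b, D1, hPm, hD, hD1, hab, hdom, hPW, hQ, hM, hMm, hsurj⟩ :=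
    exists_data hY hne hprime
  set pr0 : (Fin m → ℂ) → (Fin k → ℂ) := fun y i => MvPolynomial.eval y (p i) with hpr0
  have hPW' : ∀ y ∈ Y, val P (pr0 y) (MvPolynomial.eval y W) = 0 := hPW
  have hQ' : ∀ y ∈ Y, ∀ j, MvPolynomial.eval (pr0 y) (D j) * y j =
    val (Q j) (pr0 y) (MvPolynomial.eval y W) := hQ
  have hM' : ∀ y ∈ Y, ∀ j, val (M j) (pr0 y) (y j) = 0 := hM
  set δ0 : MvPolynomial (Fin k) ℂ := D1 * ∏ j, D j with hδ0
  have hδ0ne : δ0 ≠ 0 := mul_ne_zero hD1 (Finset.prod_ne_zero_iff.2 fun j _ => hD j)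
  obtain ⟨z0, hz0⟩ := exists_eval_ne hδ0ne
  have hδ0' : ∀ z, MvPolynomial.eval z δ0 ≠ 0 →
      MvPolynomial.eval z D1 ≠ 0 ∧ ∀ j, MvPolynomial.eval z (D j) ≠ 0 := by
    intro z hz
    rw [hδ0, map_mul, map_prod] at hz
    exact ⟨left_ne_zero_of_mul hz, fun j => Finset.prod_ne_zero_iff.1 (right_ne_zero_of_mul hz) j
      (Finset.mem_univ j)⟩
  -- the sections in the original coordinates
  have hsec : ∀ z : Fin k → ℂ, MvPolynomial.eval z δ0 ≠ 0 → ∃ r : ℝ, 0 < r ∧
      ∃ s : Fin P.natDegree → (Fin k → ℂ) → (Fin m → ℂ),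
        (∀ i, DifferentiableOn ℂ (s i) (ball z r)) ∧
        ∀ z' ∈ ball z r, MvPolynomial.eval z' δ0 ≠ 0 ∧ Function.Injective (fun i => s i z') ∧
          {y | y ∈ Y ∧ pr0 y = z'} = Set.range (fun i => s i z') := by
    intro z hz
    obtain ⟨hz1, hz2⟩ := hδ0' z hz
    have hdeg : ∀ z' : Fin k → ℂ, (P.map (MvPolynomial.eval z')).natDegree = P.natDegree :=
      fun z' => hPm.natDegree_map _
    have hsep : (P.map (MvPolynomial.eval z)).Separable := by
      have h := congrArg (Polynomial.map (MvPolynomial.eval z)) hab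
      rw [Polynomial.map_add, Polynomial.map_mul, Polynomial.map_mul, Polynomial.map_C,
        ← Polynomial.derivative_map] at h
      refine ⟨Polynomial.C (MvPolynomial.eval z D1)⁻¹ * a.map (MvPolynomial.eval z),
        Polynomial.C (MvPolynomial.eval z D1)⁻¹ * b.map (MvPolynomial.eval z), ?_⟩
      have h2 : Polynomial.C (MvPolynomial.eval z D1)⁻¹ * Polynomial.C (MvPolynomial.eval z D1) =
          (1 : Polynomial ℂ) := by
        rw [← Polynomial.C_mul, inv_mul_cancel₀ hz1, Polynomial.C_1]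
      linear_combination Polynomial.C (MvPolynomial.eval z D1)⁻¹ * h + h2
    obtain ⟨ω, hωinj, hω⟩ : ∃ ω : Fin P.natDegree → ℂ, Function.Injective ω ∧
        ∀ i, val P z (ω i) = 0 := by
      obtain ⟨ω, h1, h2⟩ := roots_fibre (hPm.map (MvPolynomial.eval z)) hsep
      refine ⟨ω ∘ Fin.cast (hdeg z).symm, h1.comp (Fin.cast_injective _), fun i => h2 _⟩
    have hω' : ∀ i, val (Polynomial.derivative P) z (ω i) ≠ 0 := by
      intro i h0
      have h := congrArg (fun T => val T z (ω i)) hab
      simp only [val, Polynomial.map_add, Polynomial.map_mul, Polynomial.map_C,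
        Polynomial.eval_add, Polynomial.eval_mul, Polynomial.eval_C] at h
      have h1 := hω i
      rw [val] at h0 h1
      rw [h0, h1, mul_zero, mul_zero, add_zero] at h
      exact hz1 h.symm
    choose ψ hψ1 hψ2 hψ3 using fun i => root_branch P z (ω i) (hω i) (hω' i)
    have hψc : ∀ i, ContinuousAt (ψ i) z := fun i => (hψ2 i).self_of_nhds.continuousAt
    have hne' : ∀ᶠ z' in 𝓝 z, ∀ i j, i ≠ j → ψ i z' ≠ ψ j z' := by
      rw [eventually_all]
      intro i
      rw [eventually_all]
      intro j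
      by_cases hij : i = j
      · exact Filter.Eventually.of_forall fun z' h => absurd hij h
      · have h1 : ψ i z - ψ j z ≠ 0 := by
          rw [hψ1, hψ1, sub_ne_zero]
          exact fun h => hij (hωinj h)
        filter_upwards [((hψc i).sub (hψc j)).eventually_ne h1] with z' hz' _
        exact sub_ne_zero.1 hz'
    have hδc : ∀ᶠ z' in 𝓝 z, MvPolynomial.eval z' δ0 ≠ 0 :=
      ((contDiff_mv δ0).continuous.continuousAt).eventually_ne hz
    have hall : ∀ᶠ z' in 𝓝 z, (∀ i, DifferentiableAt ℂ (ψ i) z') ∧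
        (∀ i, val P z' (ψ i z') = 0) ∧ (∀ i j, i ≠ j → ψ i z' ≠ ψ j z') ∧
        MvPolynomial.eval z' δ0 ≠ 0 := by
      filter_upwards [eventually_all.2 hψ2, eventually_all.2 hψ3, hne', hδc] with z' h1 h2 h3 h4
      exact ⟨h1, h2, h3, h4⟩
    obtain ⟨r, hr, hball⟩ := Metric.eventually_nhds_iff_ball.1 hall
    refine ⟨r, hr, fun i z' j => val (Q j) z' (ψ i z') / MvPolynomial.eval z' (D j), ?_, ?_⟩
    · intro i
      rw [differentiableOn_pi]
      intro j z' hz'
      obtain ⟨h1, h2, h3, h4⟩ := hball z' hz'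
      apply DifferentiableAt.differentiableWithinAt
      change DifferentiableAt ℂ (fun x => val (Q j) x (ψ i x) / MvPolynomial.eval x (D j)) z'
      simp only [div_eq_mul_inv]
      apply DifferentiableAt.fun_mul
      · have e1 : DifferentiableAt ℂ (fun z' : Fin k → ℂ => (z', ψ i z')) z' :=
          differentiableAt_id.prodMk (h1 i)
        exact DifferentiableAt.comp (g := fun u : (Fin k → ℂ) × ℂ => val (Q j) u.1 u.2) z'
          ((contDiff_val (Q j)).differentiable one_ne_zero _) e1
      · exact ((contDiff_mv (D j)).differentiable one_ne_zero _).fun_inv ((hδ0' z' h4).2 j)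
    · intro z' hz'
      obtain ⟨h1, h2, h3, h4⟩ := hball z' hz'
      obtain ⟨h5, h6⟩ := hδ0' z' h4
      have hform : ∀ y ∈ Y, pr0 y = z' → ∀ i, MvPolynomial.eval y W = ψ i z' →
          y = fun j => val (Q j) z' (ψ i z') / MvPolynomial.eval z' (D j) := by
        intro y hy hyz i hyi
        ext j
        have := hQ' y hy j
        rw [hyz, hyi] at this
        rw [eq_div_iff (h6 j), mul_comm, this]
      have hpt : ∀ i, ∃ y ∈ Y, pr0 y = z' ∧ MvPolynomial.eval y W = ψ i z' ∧
          y = fun j => val (Q j) z' (ψ i z') / MvPolynomial.eval z' (D j) := by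
        intro i
        obtain ⟨y, hy, hyp, hyW⟩ := hsurj z' (ψ i z') (h2 i)
        have hyz : pr0 y = z' := funext hyp
        exact ⟨y, hy, hyz, hyW, hform y hy hyz i hyW⟩
      refine ⟨h4, ?_, ?_⟩
      · intro i j hij
        by_contra hne
        obtain ⟨y1, -, -, hW1, e1⟩ := hpt i
        obtain ⟨y2, -, -, hW2, e2⟩ := hpt j
        have : y1 = y2 := by rw [e1, e2]; exact hij
        rw [this, hW2] at hW1
        exact h3 i j hne hW1.symm
      · ext y
        constructor
        · rintro ⟨hy, hyz⟩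
          have hroot := hPW' y hy
          rw [hyz] at hroot
          obtain ⟨i, hi⟩ := all_roots (hPm.map (MvPolynomial.eval z')) (hdeg z')
            (fun i => ψ i z') (fun i j hij => by
              by_contra hne
              exact h3 i j hne hij) h2 _ hroot
          exact ⟨i, (hform y hy hyz i hi).symm⟩
        · rintro ⟨i, rfl⟩
          obtain ⟨y, hy, hyz, -, he⟩ := hpt i
          change (fun j => val (Q j) z' (ψ i z') / MvPolynomial.eval z' (D j)) ∈
            {y | y ∈ Y ∧ pr0 y = z'}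
          rw [← he]
          exact ⟨hy, hyz⟩
  refine ⟨k, fun y => pr0 y - z0, tr z0 δ0, P.natDegree, ?_⟩
  constructor
  · exact isClosed_of_isAlg hY
  · apply Differentiable.sub_const
    rw [differentiable_pi]
    intro i
    exact (contDiff_mv (p i)).differentiable one_ne_zero
  · rw [eval_tr, zero_add]
    exact hz0
  · intro R
    have hbd : ∀ j, ∃ C : ℝ, ∀ z ∈ closedBall z0 R,
        ‖∑ l ∈ Finset.range (M j).natDegree, ‖MvPolynomial.eval z ((M j).coeff l)‖‖ ≤ C := by
      intro j
      apply (isCompact_closedBall z0 R).exists_bound_of_continuousOn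
      apply Continuous.continuousOn
      apply continuous_finset_sum
      intro l _
      exact ((contDiff_mv _).continuous).norm
    choose C hC using hbd
    refine ⟨1 + ∑ j, |C j|, ?_⟩
    intro y hy hyR
    have hS : 0 ≤ ∑ j, |C j| := Finset.sum_nonneg fun j _ => abs_nonneg _
    rw [pi_norm_le_iff_of_nonneg (by linarith)]
    intro j
    have hz : pr0 y ∈ closedBall z0 R := by
      rw [mem_closedBall, dist_eq_norm]
      exact hyR
    have h1 := root_bound ((hMm j).map (MvPolynomial.eval (pr0 y))) (hM' y hy j)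
    have h2 := hC j _ hz
    rw [(hMm j).natDegree_map] at h1
    simp only [Polynomial.coeff_map] at h1
    have h3 := (le_abs_self _).trans h2
    have h4 : C j ≤ |C j| := le_abs_self _
    have h5 : |C j| ≤ ∑ j, |C j| :=
      Finset.single_le_sum (f := fun j => |C j|) (fun j _ => abs_nonneg _) (Finset.mem_univ j)
    linarith
  · intro G hG
    obtain ⟨y, hy, h⟩ := hdom (tr (-z0) G) (tr_ne_zero _ hG)
    refine ⟨y, hy, ?_⟩
    rw [eval_tr] at h
    rw [sub_eq_add_neg]
    exact h
  · intro z hz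
    rw [eval_tr] at hz
    obtain ⟨r, hr, s, hs1, hs2⟩ := hsec (z + z0) hz
    refine ⟨r, hr, fun i z' => s i (z' + z0), ?_, ?_⟩
    · intro i
      apply (hs1 i).comp
      · exact (differentiable_id.add_const z0).differentiableOn
      · intro z' hz'
        rw [mem_ball, dist_eq_norm] at hz' ⊢
        simpa using hz'
    · intro z' hz'
      have hz'' : z' + z0 ∈ ball (z + z0) r := by
        rw [mem_ball, dist_eq_norm] at hz' ⊢
        simpa using hz'
      obtain ⟨h1, h2, h3⟩ := hs2 _ hz''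
      refine ⟨by rw [eval_tr]; exact h1, h2, ?_⟩
      rw [← h3]
      ext y
      simp only [mem_setOf_eq, sub_eq_iff_eq_add]

end Pool.Agent.TH211.J173
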